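import Mathlib

set_option autoImplicit false

namespace Pool.Agent.Results.MP_75e066_al.Neg

/-- A hypergroup: a set-valued product with unit `one` and the map `s ↦ s*`. -/
structure Hyp (H : Type) where
  mul : H → H → Set H
  one : H
  star : H → H
  h1 : ∀ p q r, (⋃ x ∈ mul q r, mul p x) = ⋃ x ∈ mul p q, mul x r
  h2 : ∀ s, mul s one = {s}
  h3 : ∀ p q r, r ∈ mul p q → q ∈ mul (star p) r ∧ p ∈ mul r (star q)

variable {H : Type} (G : Hyp H)

/-- The product of two subsets. -/
def Hyp.pr (P Q : Set H) : Set H := ⋃ p ∈ P, ⋃ q ∈ Q, G.mul p q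

def Hyp.Closed (F : Set H) : Prop := F.Nonempty ∧ G.pr (G.star '' F) F ⊆ F

/-- `F` is normal in the closed subset `E`. -/
def Hyp.NormalIn (F E : Set H) : Prop := F ⊆ E ∧ ∀ h ∈ E, G.pr F {h} ⊆ G.pr {h} F

def Hyp.Subnormal (F : Set H) : Prop :=
  ∃ (n : ℕ) (C : ℕ → Set H), 1 ≤ n ∧ C 0 = F ∧ C n = Set.univ ∧ (∀ i ≤ n, G.Closed (C i)) ∧
    ∀ i < n, G.NormalIn (C i) (C (i + 1))

/-- A chain in which every term is strongly normal in the next one. -/
def Hyp.StronglySubnormal (F : Set H) : Prop :=
  ∃ (n : ℕ) (C : ℕ → Set H), 1 ≤ n ∧ C 0 = F ∧ C n = Set.univ ∧ (∀ i ≤ n, G.Closed (C i)) ∧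
    ∀ i < n, C i ⊆ C (i + 1) ∧ ∀ h ∈ C (i + 1), G.pr (G.pr {G.star h} (C i)) {h} ⊆ C i

/-- The double coset `h^F = F h F`. -/
def Hyp.dc (F : Set H) (h : H) : Set H := G.pr (G.pr F {h}) F

/-- The product `a^F · b^F = {x^F : x ∈ a F b}` in the quotient `H // F`. -/
def Hyp.qm (F : Set H) (a b : H) : Set (Set H) := G.dc F '' G.pr (G.pr {a} F) {b}

/-- The upper central series: `h ∈ Z (i+1)` iff `h^F` lies in the centre of `H // F`, where
`F = Z i` (in `H // F` the unit is `1^F` and `(h^F)* = (h*)^F`). -/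
def Hyp.Z : ℕ → Set H
  | 0 => {G.one}
  | i + 1 => {h | (∀ x, G.qm (Hyp.Z i) h x = G.qm (Hyp.Z i) x h) ∧
      G.qm (Hyp.Z i) (G.star h) h = {G.dc (Hyp.Z i) G.one}}

def row (p q : Fin 16) : ℕ :=
  (3059779741685950181006122265056682191401206942300717944799976641589136838993258504843125260913627715523828404793325054218623866640673261509114700132664443411295539705653154747865567544743970890965121297747333536970093361449978263780446248012144874498923182730585925787354709536035027421415855704418415670106748530511352697449511872517222684147529789381616859709363962557088146207899280787941372951288965621690699960402109935852414173630319209386002125819922921073669773573634022917060887751613130634594724152505017959164886931384487853965800868490422261880963282456306081354965355493303722291866152029479089630332622136543743887603476790170762464826571419598753284260335194127174070991019311407206248226603477073351806344725510832380381855037856133084619248257526469733036745935083862744572531902101831025853336519627789382097272112212635075762301041562216175911304890653820197551856564519529545720598669898384527302874254915755062844417917541800640010170711870139734392819659972245622783415534261241791455890111307270418901895565117977945648451335947220712878714308572327931549351784913295981217193317450834568232856271616361502189063768892865296556195417641215505827187776109836565193492821704881036898474381851834956852171505665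
  >>> (256 * p.1 + 16 * q.1)) % 65536

def tb (p q r : Fin 16) : Bool := (row p q).testBit r

def st : Fin 16 → Fin 16 := ![0, 1, 2, 3, 10, 11, 12, 13, 14, 15, 4, 5, 6, 7, 8, 9]

def U (c : Fin 16 → Bool) (f : Fin 16 → ℕ) : List (Fin 16) → ℕ
  | [] => 0
  | x :: l => bif c x then f x ||| U c f l else U c f l

lemma U_bit (c : Fin 16 → Bool) (f : Fin 16 → ℕ) (l : List (Fin 16)) (y : ℕ) :
    (U c f l).testBit y ↔ ∃ x ∈ l, c x ∧ (f x).testBit y := by
  induction l with
  | nil => simp [U]
  | cons x l ih => cases h : c x <;> simp [U, h, ih]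

lemma ta : ∀ p q r, U (tb q r) (row p) (List.finRange 16) =
    U (tb p q) (row · r) (List.finRange 16) := by decide +kernel

/-- The double cosets of a subgroup of order 2 in the affine group of the field with 8 elements. -/
def E : Hyp (Fin 16) where
  mul p q := {r | tb p q r}
  one := 0
  star := st
  h1 p q r := by
    ext y
    have := (U_bit _ _ _ y).symm.trans ((ta p q r ▸ U_bit (tb p q) (row · r) _ y :))
    simp only [List.mem_finRange, true_and] at this
    simp only [Set.mem_iUnion, Set.mem_setOf_eq, exists_prop]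
    exact this
  h2 s := by
    ext y
    simp only [Set.mem_setOf_eq, Set.mem_singleton_iff]
    revert s y
    decide +kernel
  h3 := by
    simp only [Set.mem_setOf_eq]
    decide +kernel

lemma mp {P Q : Set (Fin 16)} {r : Fin 16} : r ∈ E.pr P Q ↔ ∃ p ∈ P, ∃ q ∈ Q, tb p q r := by
  simp [Hyp.pr, E]

lemma r0 (h : Fin 16) : E.pr {h} {0} = {h} := by
  simp only [Hyp.pr, Set.biUnion_singleton]
  exact E.h2 h

lemma l0 (h : Fin 16) : E.pr {0} {h} = {h} := by
  ext y
  simp only [mp, Set.mem_singleton_iff, exists_eq_left]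
  revert h y
  decide +kernel

lemma Z0 (n : ℕ) : E.Z n = {0} := by
  induction n with
  | zero => rfl
  | succ n ih =>
    have e : ∀ a b, E.qm {0} a b = singleton '' {r | tb a b r} := fun a b => by
      simp only [Hyp.qm, Hyp.dc, l0, r0]
      congr 1
      ext y
      simp [mp]
    have e1 : E.dc {0} E.one = {0} := by simp only [Hyp.dc, l0, r0]; rfl
    ext h
    simp only [Hyp.Z, ih, Set.mem_setOf_eq, e, e1, ← Set.image_singleton (f := singleton),
      Set.singleton_injective.image_injective.eq_iff, Set.ext_iff, Set.mem_singleton_iff]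
    revert h
    decide +kernel

def T : Set (Fin 16) := {x | x < 4}

def gen (h : Fin 16) : ℕ → ℕ
  | 0 => 2 ^ h.1
  | k + 1 => gen h k ||| U (fun p => (gen h k).testBit p)
      (fun p => U (fun q => (gen h k).testBit q) (row (st p)) (List.finRange 16)) (List.finRange 16)

lemma full {F : Set (Fin 16)} (hF : E.Closed F) {h : Fin 16} (hh : h ∈ F) (hT : h ∉ T) :
    F = Set.univ := by
  have : ∀ k (x : Fin 16), (gen h k).testBit x → x ∈ F := fun k => by
    induction k with
    | zero =>
      intro x hx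
      rw [gen, Nat.testBit_two_pow, decide_eq_true_iff, Fin.val_inj] at hx
      exact hx ▸ hh
    | succ k ih =>
      intro x hx
      rw [gen, Nat.testBit_or, Bool.or_eq_true, U_bit] at hx
      rcases hx with hx | ⟨p, -, hp, hx⟩
      · exact ih x hx
      · obtain ⟨q, -, hq, hx⟩ := (U_bit ..).1 hx
        exact hF.2 (mp.2 ⟨_, ⟨p, ih p hp, rfl⟩, q, ih q hq, hx⟩)
  have e : ∀ h : Fin 16, ¬h < 4 → ∀ x : Fin 16, (gen h 4).testBit x := by decide +kernel
  exact Set.eq_univ_of_forall fun x => this 4 x (e h hT x)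

theorem result : ∃ (H : Type) (_ : Finite H) (G : Hyp H),
    (∀ F, G.Closed F → G.Subnormal F ∧ G.StronglySubnormal F) ∧ ∀ n, G.Z n ≠ Set.univ := by
  refine ⟨Fin 16, inferInstance, E, fun F hF => ?_, fun n hn => ?_⟩
  swap
  · have : 1 ∈ E.Z n := hn ▸ Set.mem_univ _
    simp [Z0] at this
  have cu : E.Closed Set.univ := ⟨⟨0, trivial⟩, Set.subset_univ _⟩
  by_cases hT : F ⊆ T
  swap
  · obtain ⟨h, hh, hT⟩ := Set.not_subset.1 hT
    obtain rfl := full hF hh hT
    refine ⟨⟨1, fun _ => Set.univ, le_rfl, rfl, rfl, fun _ _ => cu, fun _ _ => ⟨le_rfl, ?_⟩⟩,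
      1, fun _ => Set.univ, le_rfl, rfl, rfl, fun _ _ => cu, fun _ _ => ⟨le_rfl, fun _ _ =>
        Set.subset_univ _⟩⟩
    rintro h - x -
    simp only [mp, Set.mem_singleton_iff, exists_eq_left, Set.mem_univ, true_and]
    revert h x
    decide +kernel
  let C : ℕ → Set (Fin 16) := fun i => if i = 0 then F else if i = 1 then T else Set.univ
  have cC : ∀ i ≤ 2, E.Closed (C i) := fun i hi => by
    interval_cases i
    · exact hF
    · refine ⟨⟨0, show (0 : Fin 16) < 4 by decide⟩, fun x hx => ?_⟩
      obtain ⟨_, ⟨p, hp, rfl⟩, q, hq, hx⟩ := mp.1 hx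
      exact (by decide +kernel : ∀ p < (4 : Fin 16), ∀ q < (4 : Fin 16), ∀ x, tb (st p) q x → x < 4)
        p hp q hq x hx
    · exact cu
  refine ⟨⟨2, C, by decide, rfl, rfl, cC, fun i hi => ?_⟩, 2, C, by decide, rfl, rfl, cC,
    fun i hi => ?_⟩ <;> interval_cases i
  · refine ⟨hT, fun h hh x hx => ?_⟩
    obtain ⟨p, hp, _, rfl, hz⟩ := mp.1 hx
    exact mp.2 ⟨_, rfl, p, hp, (by decide +kernel : ∀ p < (4 : Fin 16), ∀ q < (4 : Fin 16), ∀ x,
      tb p q x → tb q p x) p (hT hp) _ hh x hz⟩
  · refine ⟨Set.subset_univ _, fun h _ x hx => ?_⟩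
    obtain ⟨p, hp, _, rfl, hz⟩ := mp.1 hx
    exact mp.2 ⟨_, rfl, (by decide +kernel : ∀ p < (4 : Fin 16), ∀ q x,
      tb p q x → ∃ r < (4 : Fin 16), tb q r x) p hp _ x hz⟩
  · refine ⟨hT, fun h hh x hx => ?_⟩
    obtain ⟨y, hy, _, rfl, hz⟩ := mp.1 hx
    obtain ⟨_, rfl, p, hp, hw⟩ := mp.1 hy
    exact (by decide +kernel : ∀ p < (4 : Fin 16), ∀ q < (4 : Fin 16), ∀ y,
      tb (st q) p y → ∀ x, tb y q x → x = p) p (hT hp) _ hh y hw x hz ▸ hp
  · refine ⟨Set.subset_univ _, fun h _ x hx => ?_⟩
    obtain ⟨y, hy, _, rfl, hz⟩ := mp.1 hx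
    obtain ⟨_, rfl, p, hp, hw⟩ := mp.1 hy
    exact (by decide +kernel : ∀ p < (4 : Fin 16), ∀ q y,
      tb (st q) p y → ∀ x, tb y q x → x < 4) p hp _ y hw x hz

end Pool.Agent.Results.MP_75e066_al.Neg
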